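import Mathlib
import Pool.Agent.H59.SumTree

/-!
A finite simple graph on nine vertices, the sum graph of the label set
`{2, 3, 4, 5, 6, 7, 8, 9, 11}`, which has a sum labeling but no sum labeling
that uses the label `1`.
-/

set_option autoImplicit false

namespace Pool.Agent.Results.MP_520ea7_co.NoMinimal

/-- `IsSumLabeling G l` says that `l` is a sum labeling of the graph `G`: an injective map from the
vertices to the positive integers such that two distinct vertices `u`, `v` are adjacent exactly
when `l u + l v` is the label of some vertex. -/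
def IsSumLabeling {V : Type} (G : SimpleGraph V) (l : V → ℕ) : Prop :=
  Function.Injective l ∧ (∀ v, 1 ≤ l v) ∧
    ∀ u v, u ≠ v → (G.Adj u v ↔ ∃ w, l w = l u + l v)

/-- The labels `2, 3, ..., 9, 11`. -/
def lab : Fin 9 → ℕ := ![2, 3, 4, 5, 6, 7, 8, 9, 11]

/-- The sum graph induced by the labels `lab`. -/
def G9 : SimpleGraph (Fin 9) where
  Adj u v := u ≠ v ∧ ∃ w, lab w = lab u + lab v
  symm := ⟨fun u v h => ⟨h.1.symm, by
    obtain ⟨w, hw⟩ := h.2
    exact ⟨w, by rw [hw, add_comm]⟩⟩⟩
  loopless := ⟨fun _ h => h.1 rfl⟩

instance : DecidableRel G9.Adj := fun u v =>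
  inferInstanceAs (Decidable (u ≠ v ∧ ∃ w, lab w = lab u + lab v))

theorem lab_isSumLabeling : IsSumLabeling G9 lab := by
  refine ⟨by decide, by decide, ?_⟩
  intro u v huv
  exact ⟨fun h => h.2, fun h => ⟨huv, h⟩⟩

theorem has_nbr : ∀ m : Fin 9, m ≠ 8 → ∃ v, v ≠ m ∧ G9.Adj m v := by decide

theorem top_max (l : Fin 9 → ℕ) (h : IsSumLabeling G9 l) : ∀ i : Fin 9, i ≠ 8 → l i < l 8 := by
  obtain ⟨hinj, hpos, hadj⟩ := h
  obtain ⟨m, -, hm⟩ := Finset.exists_max_image (Finset.univ : Finset (Fin 9)) l ⟨0, Finset.mem_univ _⟩
  have hm8 : m = 8 := by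
    by_contra hne
    obtain ⟨v, hv, hav⟩ := has_nbr m hne
    obtain ⟨w, hw⟩ := (hadj m v (Ne.symm hv)).1 hav
    have h1 := hm w (Finset.mem_univ _)
    have h2 := hpos v
    omega
  subst hm8
  intro i hi
  have h1 := hm i (Finset.mem_univ _)
  have h2 : l i ≠ l 8 := fun h => hi (hinj h)
  omega

theorem ex9 {P : Fin 9 → Prop} (h : ∃ w, P w) :
    P 0 ∨ P 1 ∨ P 2 ∨ P 3 ∨ P 4 ∨ P 5 ∨ P 6 ∨ P 7 ∨ P 8 := by
  obtain ⟨w, hw⟩ := h
  fin_cases w <;> simp_all

theorem hyp_of (l : Fin 9 → ℕ) (h : IsSumLabeling G9 l) :
    H59.SumGraph.Hyp (l 0) (l 1) (l 2) (l 3) (l 4) (l 5) (l 6) (l 7) (l 8) := by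
  have ht := top_max l h
  obtain ⟨hinj, hpos, hadj⟩ := h
  have hd : ∀ i j : Fin 9, i ≠ j → ¬ l i = l j := fun i j hij h => hij (hinj h)
  have hn : ∀ i j : Fin 9, i ≠ j → ¬ G9.Adj i j → ∀ w, ¬ l i + l j = l w :=
    fun i j hij hna w hw => hna ((hadj i j hij).2 ⟨w, hw.symm⟩)
  have he : ∀ i j : Fin 9, G9.Adj i j → ∃ w, l i + l j = l w := by
    intro i j hij
    obtain ⟨w, hw⟩ := (hadj i j hij.1).1 hij
    exact ⟨w, hw.symm⟩
  have p0 := hpos 0
  have p1 := hpos 1
  have p2 := hpos 2
  have p3 := hpos 3
  have p4 := hpos 4
  have p5 := hpos 5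
  have p6 := hpos 6
  have p7 := hpos 7
  have p8 := hpos 8
  exact
    { p0 := p0
      p1 := p1
      p2 := p2
      p3 := p3
      p4 := p4
      p5 := p5
      p6 := p6
      p7 := p7
      p8 := p8
      t0 := ht 0 (by decide)
      t1 := ht 1 (by decide)
      t2 := ht 2 (by decide)
      t3 := ht 3 (by decide)
      t4 := ht 4 (by decide)
      t5 := ht 5 (by decide)
      t6 := ht 6 (by decide)
      t7 := ht 7 (by decide)
      d01 := hd 0 1 (by decide)
      d02 := hd 0 2 (by decide)
      d03 := hd 0 3 (by decide)
      d04 := hd 0 4 (by decide)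
      d05 := hd 0 5 (by decide)
      d06 := hd 0 6 (by decide)
      d07 := hd 0 7 (by decide)
      d08 := hd 0 8 (by decide)
      d12 := hd 1 2 (by decide)
      d13 := hd 1 3 (by decide)
      d14 := hd 1 4 (by decide)
      d15 := hd 1 5 (by decide)
      d16 := hd 1 6 (by decide)
      d17 := hd 1 7 (by decide)
      d18 := hd 1 8 (by decide)
      d23 := hd 2 3 (by decide)
      d24 := hd 2 4 (by decide)
      d25 := hd 2 5 (by decide)
      d26 := hd 2 6 (by decide)
      d27 := hd 2 7 (by decide)
      d28 := hd 2 8 (by decide)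
      d34 := hd 3 4 (by decide)
      d35 := hd 3 5 (by decide)
      d36 := hd 3 6 (by decide)
      d37 := hd 3 7 (by decide)
      d38 := hd 3 8 (by decide)
      d45 := hd 4 5 (by decide)
      d46 := hd 4 6 (by decide)
      d47 := hd 4 7 (by decide)
      d48 := hd 4 8 (by decide)
      d56 := hd 5 6 (by decide)
      d57 := hd 5 7 (by decide)
      d58 := hd 5 8 (by decide)
      d67 := hd 6 7 (by decide)
      d68 := hd 6 8 (by decide)
      d78 := hd 7 8 (by decide)
      n060 := hn 0 6 (by decide) (by decide) 0
      n061 := hn 0 6 (by decide) (by decide) 1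
      n062 := hn 0 6 (by decide) (by decide) 2
      n063 := hn 0 6 (by decide) (by decide) 3
      n064 := hn 0 6 (by decide) (by decide) 4
      n065 := hn 0 6 (by decide) (by decide) 5
      n067 := hn 0 6 (by decide) (by decide) 7
      n068 := hn 0 6 (by decide) (by decide) 8
      n080 := hn 0 8 (by decide) (by decide) 0
      n081 := hn 0 8 (by decide) (by decide) 1
      n082 := hn 0 8 (by decide) (by decide) 2
      n083 := hn 0 8 (by decide) (by decide) 3
      n084 := hn 0 8 (by decide) (by decide) 4
      n085 := hn 0 8 (by decide) (by decide) 5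
      n086 := hn 0 8 (by decide) (by decide) 6
      n087 := hn 0 8 (by decide) (by decide) 7
      n150 := hn 1 5 (by decide) (by decide) 0
      n151 := hn 1 5 (by decide) (by decide) 1
      n152 := hn 1 5 (by decide) (by decide) 2
      n153 := hn 1 5 (by decide) (by decide) 3
      n154 := hn 1 5 (by decide) (by decide) 4
      n156 := hn 1 5 (by decide) (by decide) 6
      n157 := hn 1 5 (by decide) (by decide) 7
      n158 := hn 1 5 (by decide) (by decide) 8
      n170 := hn 1 7 (by decide) (by decide) 0
      n171 := hn 1 7 (by decide) (by decide) 1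
      n172 := hn 1 7 (by decide) (by decide) 2
      n173 := hn 1 7 (by decide) (by decide) 3
      n174 := hn 1 7 (by decide) (by decide) 4
      n175 := hn 1 7 (by decide) (by decide) 5
      n176 := hn 1 7 (by decide) (by decide) 6
      n178 := hn 1 7 (by decide) (by decide) 8
      n180 := hn 1 8 (by decide) (by decide) 0
      n182 := hn 1 8 (by decide) (by decide) 2
      n183 := hn 1 8 (by decide) (by decide) 3
      n184 := hn 1 8 (by decide) (by decide) 4
      n185 := hn 1 8 (by decide) (by decide) 5
      n186 := hn 1 8 (by decide) (by decide) 6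
      n187 := hn 1 8 (by decide) (by decide) 7
      n241 := hn 2 4 (by decide) (by decide) 1
      n243 := hn 2 4 (by decide) (by decide) 3
      n245 := hn 2 4 (by decide) (by decide) 5
      n246 := hn 2 4 (by decide) (by decide) 6
      n247 := hn 2 4 (by decide) (by decide) 7
      n248 := hn 2 4 (by decide) (by decide) 8
      n260 := hn 2 6 (by decide) (by decide) 0
      n261 := hn 2 6 (by decide) (by decide) 1
      n263 := hn 2 6 (by decide) (by decide) 3
      n264 := hn 2 6 (by decide) (by decide) 4
      n265 := hn 2 6 (by decide) (by decide) 5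
      n267 := hn 2 6 (by decide) (by decide) 7
      n268 := hn 2 6 (by decide) (by decide) 8
      n270 := hn 2 7 (by decide) (by decide) 0
      n271 := hn 2 7 (by decide) (by decide) 1
      n273 := hn 2 7 (by decide) (by decide) 3
      n274 := hn 2 7 (by decide) (by decide) 4
      n275 := hn 2 7 (by decide) (by decide) 5
      n276 := hn 2 7 (by decide) (by decide) 6
      n278 := hn 2 7 (by decide) (by decide) 8
      n280 := hn 2 8 (by decide) (by decide) 0
      n281 := hn 2 8 (by decide) (by decide) 1
      n283 := hn 2 8 (by decide) (by decide) 3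
      n284 := hn 2 8 (by decide) (by decide) 4
      n285 := hn 2 8 (by decide) (by decide) 5
      n286 := hn 2 8 (by decide) (by decide) 6
      n287 := hn 2 8 (by decide) (by decide) 7
      n350 := hn 3 5 (by decide) (by decide) 0
      n351 := hn 3 5 (by decide) (by decide) 1
      n352 := hn 3 5 (by decide) (by decide) 2
      n354 := hn 3 5 (by decide) (by decide) 4
      n356 := hn 3 5 (by decide) (by decide) 6
      n357 := hn 3 5 (by decide) (by decide) 7
      n358 := hn 3 5 (by decide) (by decide) 8
      n360 := hn 3 6 (by decide) (by decide) 0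
      n361 := hn 3 6 (by decide) (by decide) 1
      n362 := hn 3 6 (by decide) (by decide) 2
      n364 := hn 3 6 (by decide) (by decide) 4
      n365 := hn 3 6 (by decide) (by decide) 5
      n367 := hn 3 6 (by decide) (by decide) 7
      n368 := hn 3 6 (by decide) (by decide) 8
      n370 := hn 3 7 (by decide) (by decide) 0
      n371 := hn 3 7 (by decide) (by decide) 1
      n372 := hn 3 7 (by decide) (by decide) 2
      n374 := hn 3 7 (by decide) (by decide) 4
      n375 := hn 3 7 (by decide) (by decide) 5
      n376 := hn 3 7 (by decide) (by decide) 6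
      n378 := hn 3 7 (by decide) (by decide) 8
      n380 := hn 3 8 (by decide) (by decide) 0
      n381 := hn 3 8 (by decide) (by decide) 1
      n382 := hn 3 8 (by decide) (by decide) 2
      n384 := hn 3 8 (by decide) (by decide) 4
      n385 := hn 3 8 (by decide) (by decide) 5
      n386 := hn 3 8 (by decide) (by decide) 6
      n387 := hn 3 8 (by decide) (by decide) 7
      n450 := hn 4 5 (by decide) (by decide) 0
      n451 := hn 4 5 (by decide) (by decide) 1
      n452 := hn 4 5 (by decide) (by decide) 2
      n453 := hn 4 5 (by decide) (by decide) 3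
      n456 := hn 4 5 (by decide) (by decide) 6
      n457 := hn 4 5 (by decide) (by decide) 7
      n458 := hn 4 5 (by decide) (by decide) 8
      n460 := hn 4 6 (by decide) (by decide) 0
      n461 := hn 4 6 (by decide) (by decide) 1
      n462 := hn 4 6 (by decide) (by decide) 2
      n463 := hn 4 6 (by decide) (by decide) 3
      n465 := hn 4 6 (by decide) (by decide) 5
      n467 := hn 4 6 (by decide) (by decide) 7
      n468 := hn 4 6 (by decide) (by decide) 8
      n470 := hn 4 7 (by decide) (by decide) 0
      n471 := hn 4 7 (by decide) (by decide) 1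
      n472 := hn 4 7 (by decide) (by decide) 2
      n473 := hn 4 7 (by decide) (by decide) 3
      n475 := hn 4 7 (by decide) (by decide) 5
      n476 := hn 4 7 (by decide) (by decide) 6
      n478 := hn 4 7 (by decide) (by decide) 8
      n480 := hn 4 8 (by decide) (by decide) 0
      n481 := hn 4 8 (by decide) (by decide) 1
      n482 := hn 4 8 (by decide) (by decide) 2
      n483 := hn 4 8 (by decide) (by decide) 3
      n485 := hn 4 8 (by decide) (by decide) 5
      n486 := hn 4 8 (by decide) (by decide) 6
      n487 := hn 4 8 (by decide) (by decide) 7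
      n560 := hn 5 6 (by decide) (by decide) 0
      n561 := hn 5 6 (by decide) (by decide) 1
      n562 := hn 5 6 (by decide) (by decide) 2
      n563 := hn 5 6 (by decide) (by decide) 3
      n564 := hn 5 6 (by decide) (by decide) 4
      n567 := hn 5 6 (by decide) (by decide) 7
      n568 := hn 5 6 (by decide) (by decide) 8
      n570 := hn 5 7 (by decide) (by decide) 0
      n573 := hn 5 7 (by decide) (by decide) 3
      n574 := hn 5 7 (by decide) (by decide) 4
      n576 := hn 5 7 (by decide) (by decide) 6
      n578 := hn 5 7 (by decide) (by decide) 8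
      n580 := hn 5 8 (by decide) (by decide) 0
      n582 := hn 5 8 (by decide) (by decide) 2
      n584 := hn 5 8 (by decide) (by decide) 4
      n586 := hn 5 8 (by decide) (by decide) 6
      n587 := hn 5 8 (by decide) (by decide) 7
      n672 := hn 6 7 (by decide) (by decide) 2
      n673 := hn 6 7 (by decide) (by decide) 3
      n674 := hn 6 7 (by decide) (by decide) 4
      n675 := hn 6 7 (by decide) (by decide) 5
      n678 := hn 6 7 (by decide) (by decide) 8
      n681 := hn 6 8 (by decide) (by decide) 1
      n685 := hn 6 8 (by decide) (by decide) 5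
      e01 := by
        have h := ex9 (he 0 1 (by decide))
        omega
      e02 := by
        have h := ex9 (he 0 2 (by decide))
        omega
      e03 := by
        have h := ex9 (he 0 3 (by decide))
        omega
      e04 := by
        have h := ex9 (he 0 4 (by decide))
        omega
      e05 := by
        have h := ex9 (he 0 5 (by decide))
        omega
      e07 := by
        have h := ex9 (he 0 7 (by decide))
        omega
      e12 := by
        have h := ex9 (he 1 2 (by decide))
        omega
      e13 := by
        have h := ex9 (he 1 3 (by decide))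
        omega
      e14 := by
        have h := ex9 (he 1 4 (by decide))
        omega
      e16 := by
        have h := ex9 (he 1 6 (by decide))
        omega
      e23 := by
        have h := ex9 (he 2 3 (by decide))
        omega
      e25 := by
        have h := ex9 (he 2 5 (by decide))
        omega
      e34 := by
        have h := ex9 (he 3 4 (by decide))
        omega }

/-- There is a finite simple graph (on nine vertices) that has a sum labeling, while no sum
labeling of it gives the label `1` to any vertex. -/
theorem result : ∃ G : SimpleGraph (Fin 9), (∃ l : Fin 9 → ℕ, IsSumLabeling G l) ∧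
    ∀ l : Fin 9 → ℕ, IsSumLabeling G l → ∀ u, l u ≠ 1 := by
  refine ⟨G9, ⟨lab, lab_isSumLabeling⟩, ?_⟩
  intro l hl
  have H := hyp_of l hl
  have hcore := H59.SumGraph.core H
  intro u
  fin_cases u
  all_goals simp only [Fin.zero_eta, Fin.mk_one, Fin.reduceFinMk]
  all_goals omega

end Pool.Agent.Results.MP_520ea7_co.NoMinimal
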